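import Mathlib
import Pool.Agent.Q153.BraidTF

/-!
# Isometric dimension and diameter of braid graphs of type `Λ`

The distance in the braid graph is the number of windows whose middle letters differ, and two words
differing at every window always exist.
-/

set_option autoImplicit false

namespace Pool.Agent.Results.MP_260d59_co.DimEqDiam

open Pool.Agent.Q153.Braid

/-- The hypercube graph `Q_n`: 0-1 vectors of length `n`, adjacent if they differ in exactly one
coordinate. -/
def cube (n : ℕ) : SimpleGraph (Fin n → Bool) where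
  Adj x y := hammingDist x y = 1
  symm := ⟨fun x y h => by rw [hammingDist_comm]; exact h⟩
  loopless := ⟨fun x h => by rw [hammingDist_self] at h; omega⟩

/-- `G` embeds isometrically into `Q_n`. -/
def EmbedsInCube {V : Type*} (G : SimpleGraph V) (n : ℕ) : Prop :=
  ∃ f : V → (Fin n → Bool), ∀ u v, (cube n).dist (f u) (f v) = G.dist u v

/-- `n` is the isometric dimension of `G`. -/
def IsIsometricDim {V : Type*} (G : SimpleGraph V) (n : ℕ) : Prop :=
  IsLeast {m | EmbedsInCube G m} n

/-- `n` is the diameter of `G`. -/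
def IsDiam {V : Type*} (G : SimpleGraph V) (n : ℕ) : Prop :=
  IsGreatest {d | ∃ u v, G.dist u v = d} n

theorem cube_walk {n : ℕ} (k : ℕ) : ∀ x y : Fin n → Bool, hammingDist x y = k →
    ∃ p : (cube n).Walk x y, p.length = k := by
  induction k with
  | zero =>
    intro x y h
    rw [hammingDist_eq_zero] at h
    subst h
    exact ⟨SimpleGraph.Walk.nil, rfl⟩
  | succ k ih =>
    intro x y h
    have hne : x ≠ y := by
      rintro rfl
      simp at h
    obtain ⟨i, hi⟩ := Function.ne_iff.mp hne
    set z := Function.update x i (y i) with hz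
    have h1 : hammingDist x z = 1 := by
      unfold hammingDist
      rw [Finset.card_eq_one]
      refine ⟨i, ?_⟩
      ext j
      rw [Finset.mem_filter, Finset.mem_singleton]
      constructor
      · rintro ⟨-, h⟩
        by_contra hj
        rw [hz, Function.update_of_ne hj] at h
        exact h rfl
      · rintro rfl
        refine ⟨Finset.mem_univ _, ?_⟩
        rw [hz, Function.update_self]
        exact hi
    have h2 : hammingDist z y = k := by
      have : (Finset.univ.filter fun j => x j ≠ y j) =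
          insert i (Finset.univ.filter fun j => z j ≠ y j) := by
        ext j
        rw [Finset.mem_insert, Finset.mem_filter, Finset.mem_filter]
        by_cases hj : j = i
        · subst hj
          simp [hi]
        · rw [hz, Function.update_of_ne hj]
          simp [hj]
      unfold hammingDist at h ⊢
      rw [this, Finset.card_insert_of_notMem] at h
      · omega
      · intro h3
        have := (Finset.mem_filter.mp h3).2
        rw [hz, Function.update_self] at this
        exact this rfl
    obtain ⟨p, hp⟩ := ih z y h2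
    exact ⟨SimpleGraph.Walk.cons (show (cube n).Adj x z from h1) p, by
      rw [SimpleGraph.Walk.length_cons, hp]⟩

theorem cube_walk_ge {n : ℕ} {x y : Fin n → Bool} (p : (cube n).Walk x y) :
    hammingDist x y ≤ p.length := by
  induction p with
  | nil => simp
  | @cons u v w h p ih =>
    have h1 : hammingDist u v = 1 := h
    have h2 := hammingDist_triangle u v w
    rw [SimpleGraph.Walk.length_cons]
    omega

theorem cube_dist {n : ℕ} (x y : Fin n → Bool) : (cube n).dist x y = hammingDist x y := by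
  obtain ⟨p, hp⟩ := cube_walk _ x y rfl
  apply le_antisymm
  · rw [← hp]
    exact SimpleGraph.dist_le p
  · obtain ⟨q, hq⟩ := (p.reachable).exists_walk_length_eq_dist
    rw [← hq]
    exact cube_walk_ge q

theorem decide_iff {α : Type*} [DecidableEq α] {m e s t : α} (hst : s ≠ t)
    (hm : m = s ∨ m = t) (he : e = s ∨ e = t) :
    (decide (m = s) = decide (e = s)) ↔ m = e := by
  rcases hm with rfl | rfl <;> rcases he with rfl | rfl <;> simp_all [Ne.symm]

/-- Two words of the class that differ at every window. -/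
theorem exists_far {B W : Type*} [Group W] {M : CoxeterMatrix B} (cs : CoxeterSystem M W)
    (htf : TriangleFree M) (a : List B) (ha : cs.IsReduced a) :
    ∃ x y : braidClass M a, ∀ p, Ever M a p → x.1[p + 1]? ≠ y.1[p + 1]? := by
  classical
  -- the letters of the windows
  have hch : ∀ p, ∃ s t : Option B, Ever M a p → ∃ c s' t', s = some s' ∧ t = some t' ∧
      Relation.ReflTransGen (Move M) a c ∧ ActiveL M p c s' t' := by
    intro p
    by_cases hp : Ever M a p
    · obtain ⟨c, hc, hca⟩ := hp
      obtain ⟨s, t, hst⟩ := hca.activeL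
      exact ⟨some s, some t, fun _ => ⟨c, s, t, rfl, rfl, hc, hst⟩⟩
    · exact ⟨none, none, fun h => absurd h hp⟩
  choose fs ft hst using hch
  have hne : ∀ p, Ever M a p → fs p ≠ ft p := by
    intro p hp
    obtain ⟨c, s, t, h1, h2, -, h3⟩ := hst p hp
    rw [h1, h2]
    intro h
    exact ne_of_three h3.1 (Option.some.inj h)
  have hmid : ∀ p, Ever M a p → ∀ c : braidClass M a, c.1[p + 1]? = fs p ∨ c.1[p + 1]? = ft p := by
    intro p hp c
    obtain ⟨d, s, t, h1, h2, hd, h3⟩ := hst p hp
    rw [h1, h2]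
    exact mid_mem cs htf ha hd h3 c.2
  -- the common letters of neighbouring windows
  have hch2 : ∀ p, ∃ e : Option B, Ever M a p → Ever M a (p + 2) → ∃ e' f g, e = some e' ∧
      M e' f = 3 ∧ M e' g = 3 ∧ f ≠ g ∧
      (∀ b, Relation.ReflTransGen (Move M) a b → Triple b p e' f g) ∧
      (∀ b s t, Relation.ReflTransGen (Move M) a b → ActiveL M p b s t →
        (s = e' ∧ t = f) ∨ (s = f ∧ t = e')) ∧
      (∀ b s t, Relation.ReflTransGen (Move M) a b → ActiveL M (p + 2) b s t →
        (s = e' ∧ t = g) ∨ (s = g ∧ t = e')) := by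
    intro p
    by_cases hp : Ever M a p
    · by_cases hp2 : Ever M a (p + 2)
      · obtain ⟨e, f, g, h⟩ := exists_triple cs htf ha hp hp2
        exact ⟨some e, fun _ _ => ⟨e, f, g, rfl, h⟩⟩
      · exact ⟨none, fun _ h => absurd h hp2⟩
    · exact ⟨none, fun h => absurd h hp⟩
  choose fe hfe using hch2
  have he1 : ∀ p, Ever M a p → Ever M a (p + 2) → fe p = fs p ∨ fe p = ft p := by
    intro p hp hp2
    obtain ⟨e, f, g, h1, -, -, -, -, h2, -⟩ := hfe p hp hp2
    obtain ⟨c, s, t, h3, h4, hc, h5⟩ := hst p hp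
    rw [h1, h3, h4]
    rcases h2 c s t hc h5 with ⟨rfl, rfl⟩ | ⟨rfl, rfl⟩
    · exact Or.inl rfl
    · exact Or.inr rfl
  have he2 : ∀ p, Ever M a p → Ever M a (p + 2) → fe p = fs (p + 2) ∨ fe p = ft (p + 2) := by
    intro p hp hp2
    obtain ⟨e, f, g, h1, -, -, -, -, -, h2⟩ := hfe p hp hp2
    obtain ⟨c, s, t, h3, h4, hc, h5⟩ := hst (p + 2) hp2
    rw [h1, h3, h4]
    rcases h2 c s t hc h5 with ⟨rfl, rfl⟩ | ⟨rfl, rfl⟩
    · exact Or.inl rfl
    · exact Or.inr rfl
  let σ : braidClass M a → ℕ → Bool := fun c p => decide (c.1[p + 1]? = fs p)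
  let ε : ℕ → Bool := fun p => decide (fe p = fs p)
  let η : ℕ → Bool := fun p => decide (fe p = fs (p + 2))
  have hσε : ∀ (c : braidClass M a) p, Ever M a p → Ever M a (p + 2) →
      (σ c p = ε p ↔ c.1[p + 1]? = fe p) := fun c p hp hp2 =>
    decide_iff (hne p hp) (hmid p hp c) (he1 p hp hp2)
  have hση : ∀ (c : braidClass M a) p, Ever M a p → Ever M a (p + 2) →
      (σ c (p + 2) = η p ↔ c.1[p + 3]? = fe p) := fun c p hp hp2 =>
    decide_iff (hne (p + 2) hp2) (hmid (p + 2) hp2 c) (he2 p hp hp2)
  have hmove : ∀ c p, Ever M a p → ¬ (Ever M a (p + 2) ∧ σ c (p + 2) = η p) →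
      (∀ q, q + 2 = p → Ever M a q → σ c q ≠ ε q) →
      ∃ c', σ c' p ≠ σ c p ∧ ∀ q, Ever M a q → q ≠ p → σ c' q = σ c q := by
    intro c p hp hRB hLB
    obtain ⟨d, s, t, h1, h2, hd, h3⟩ := hst p hp
    have hright : (c.1[p + 1]? = some s ∧ c.1[p + 2]? = some t) ∨
        (c.1[p + 1]? = some t ∧ c.1[p + 2]? = some s) := by
      by_cases hp2 : Ever M a (p + 2)
      · have h4 : c.1[p + 3]? ≠ fe p := fun h => hRB ⟨hp2, (hση c p hp hp2).mpr h⟩
        obtain ⟨e, f, g, e1, -, -, -, e2, e3, -⟩ := hfe p hp hp2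
        rw [e1] at h4
        have e4 := e3 d s t hd h3
        rcases e2 c.1 c.2 with ⟨k1, k2, k3⟩ | ⟨k1, k2, k3⟩ | ⟨k1, k2, k3⟩
        · rw [k1, k2]
          rcases e4 with ⟨rfl, rfl⟩ | ⟨rfl, rfl⟩ <;> simp
        · rw [k1, k2]
          rcases e4 with ⟨rfl, rfl⟩ | ⟨rfl, rfl⟩ <;> simp
        · exact absurd k3 h4
      · exact right_end cs ha hp2 hd h3 c.2
    have hleft : (c.1[p + 1]? = some s ∧ c.1[p]? = some t) ∨
        (c.1[p + 1]? = some t ∧ c.1[p]? = some s) := by
      by_cases hq : ∃ q, q + 2 = p ∧ Ever M a q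
      · obtain ⟨q, rfl, hq⟩ := hq
        have h4 : c.1[q + 1]? ≠ fe q := fun h => hLB q rfl hq ((hσε c q hq hp).mpr h)
        obtain ⟨e, f, g, e1, -, -, -, e2, -, e3⟩ := hfe q hq hp
        rw [e1] at h4
        have e4 := e3 d s t hd h3
        rcases e2 c.1 c.2 with ⟨k1, k2, k3⟩ | ⟨k1, k2, k3⟩ | ⟨k1, k2, k3⟩
        · rw [show q + 2 + 1 = q + 3 from rfl, k3, k2]
          rcases e4 with ⟨rfl, rfl⟩ | ⟨rfl, rfl⟩ <;> simp
        · exact absurd k1 h4
        · rw [show q + 2 + 1 = q + 3 from rfl, k3, k2]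
          rcases e4 with ⟨rfl, rfl⟩ | ⟨rfl, rfl⟩ <;> simp
      · push Not at hq
        exact left_end cs ha hq hd h3 c.2
    have hact : Active M p c.1 := by
      have hst' : s ≠ t := ne_of_three h3.1
      rcases hright with ⟨k1, k2⟩ | ⟨k1, k2⟩
      · rcases hleft with ⟨l1, l2⟩ | ⟨l1, l2⟩
        · exact ActiveL.active (s := t) (t := s) ⟨by rw [M.symmetric]; exact h3.1, l2, k1, k2⟩
        · rw [k1] at l1
          exact absurd (Option.some.inj l1) hst'
      · rcases hleft with ⟨l1, l2⟩ | ⟨l1, l2⟩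
        · rw [k1] at l1
          exact absurd (Option.some.inj l1).symm hst'
        · exact ActiveL.active (s := s) (t := t) ⟨h3.1, l2, k1, k2⟩
    obtain ⟨b, hb⟩ := hact
    have hbc : b ∈ braidClass M a := Relation.ReflTransGen.tail c.2 ⟨p, hb⟩
    obtain ⟨m1, m2⟩ := MoveAt.mid cs ha c.2 hb
    refine ⟨⟨b, hbc⟩, ?_, ?_⟩
    · intro h
      have h5 : (decide (b[p + 1]? = fs p) = decide (c.1[p + 1]? = fs p)) := h
      have := (decide_iff (hne p hp) (hmid p hp ⟨b, hbc⟩) (hmid p hp c)).mp h5
      exact m1 this.symm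
    · intro q hq hqp
      show decide (b[q + 1]? = fs q) = decide (c.1[q + 1]? = fs q)
      rw [m2 q hq hqp]
  have hexc : ∀ c p, Ever M a p → Ever M a (p + 2) → ¬ (σ c p = ε p ∧ σ c (p + 2) = η p) := by
    rintro c p hp hp2 ⟨h1, h2⟩
    rw [hσε c p hp hp2] at h1
    rw [hση c p hp hp2] at h2
    obtain ⟨e, f, g, e1, e5, e6, e7, e2, -⟩ := hfe p hp hp2
    rw [e1] at h1 h2
    have hef := ne_of_three e5
    have heg := ne_of_three e6
    rcases e2 c.1 c.2 with ⟨k1, k2, k3⟩ | ⟨k1, k2, k3⟩ | ⟨k1, k2, k3⟩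
    · rw [k1] at h1
      exact hef (Option.some.inj h1).symm
    · rw [k3] at h2
      exact heg (Option.some.inj h2).symm
    · rw [k1] at h1
      exact hef (Option.some.inj h1).symm
  obtain ⟨x, y, hxy⟩ := exists_antipodal (⟨a, Relation.ReflTransGen.refl⟩ : braidClass M a)
    a.length (Ever M a) (fun p hp => hp.lt) σ ε η hmove hexc
  refine ⟨x, y, fun p hp h => hxy p hp ?_⟩
  show decide (x.1[p + 1]? = fs p) = decide (y.1[p + 1]? = fs p)
  rw [h]

/-- The main theorem in terms of the number of windows. -/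
theorem exists_dim {B W : Type*} [Group W] {M : CoxeterMatrix B} (cs : CoxeterSystem M W)
    (htf : TriangleFree M) (a : List B) (ha : cs.IsReduced a) :
    ∃ n, IsIsometricDim (braidGraph M a) n ∧ IsDiam (braidGraph M a) n := by
  classical
  have hch : ∀ p, ∃ s t : Option B, Ever M a p → s ≠ t ∧
      ∀ c : braidClass M a, c.1[p + 1]? = s ∨ c.1[p + 1]? = t := by
    intro p
    by_cases hp : Ever M a p
    · obtain ⟨c, hc, hca⟩ := hp
      obtain ⟨s, t, hst⟩ := hca.activeL
      exact ⟨some s, some t, fun _ => ⟨fun h => ne_of_three hst.1 (Option.some.inj h),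
        fun d => mid_mem cs htf ha hc hst d.2⟩⟩
    · exact ⟨none, none, fun h => absurd h hp⟩
  choose fs ft hst using hch
  set n := (everSet M a).card with hn
  let eqv : Fin n ≃ everSet M a := (everSet M a).equivFin.symm
  let F : braidClass M a → (Fin n → Bool) := fun c i => decide (c.1[(eqv i).1 + 1]? = fs (eqv i).1)
  have hF : ∀ u v, hammingDist (F u) (F v) = (braidGraph M a).dist u v := by
    intro u v
    rw [dist_eq_midDist cs htf ha]
    unfold hammingDist midDist
    apply Finset.card_bij (fun i _ => (eqv i).1)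
    · intro i hi
      rw [Finset.mem_filter] at hi ⊢
      refine ⟨(eqv i).2, fun h => hi.2 ?_⟩
      show decide (u.1[(eqv i).1 + 1]? = fs (eqv i).1) = decide (v.1[(eqv i).1 + 1]? = fs (eqv i).1)
      rw [h]
    · intro i _ j _ h
      exact eqv.injective (Subtype.ext h)
    · intro p hp
      rw [Finset.mem_filter] at hp
      refine ⟨eqv.symm ⟨p, hp.1⟩, ?_, by simp⟩
      rw [Finset.mem_filter]
      refine ⟨Finset.mem_univ _, fun h => hp.2 ?_⟩
      have h1 : decide (u.1[p + 1]? = fs p) = decide (v.1[p + 1]? = fs p) := by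
        have := h
        simp only [F, Equiv.apply_symm_apply] at this
        exact this
      obtain ⟨h2, h3⟩ := hst p (mem_everSet.mp hp.1)
      exact (decide_iff h2 (h3 u) (h3 v)).mp h1
  obtain ⟨x, y, hxy⟩ := exists_far cs htf a ha
  have hdxy : (braidGraph M a).dist x y = n := by
    rw [dist_eq_midDist cs htf ha]
    unfold midDist
    rw [Finset.filter_true_of_mem (fun p hp => hxy p (mem_everSet.mp hp))]
  refine ⟨n, ⟨⟨F, fun u v => by rw [cube_dist, hF]⟩, ?_⟩, ⟨⟨x, y, hdxy⟩, ?_⟩⟩
  · rintro m ⟨f, hf⟩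
    have := hf x y
    rw [cube_dist, hdxy] at this
    rw [← this]
    simpa using hammingDist_le_card_fintype (x := f x) (y := f y)
  · rintro d ⟨u, v, rfl⟩
    rw [← hF]
    simpa using hammingDist_le_card_fintype (x := F u) (y := F v)

/-- **Q1 holds.**  For every Coxeter system of type `Λ` (simply laced and triangle free) and every
reduced expression `a`, the isometric dimension of the braid graph of `a` equals its diameter. -/
theorem result {B W : Type*} [Group W] {M : CoxeterMatrix B} (cs : CoxeterSystem M W)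
    (_hM : SimplyLaced M) (htf : TriangleFree M) (a : List B) (ha : cs.IsReduced a) :
    ∃ n, IsIsometricDim (braidGraph M a) n ∧ IsDiam (braidGraph M a) n :=
  exists_dim cs htf a ha

end Pool.Agent.Results.MP_260d59_co.DimEqDiam
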